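import Pool.Agent.L5helper68.GD.Occ

/-!
# Clifford's theorem and induction
-/

set_option autoImplicit false

open Representation

namespace Pool.Agent.L5helper68.GD

variable {Ω : Type} [Field Ω] {G G' : Type} [Group G] [Group G']
  {S T V W : Type} [AddCommGroup S] [Module Ω S] [AddCommGroup T] [Module Ω T] [AddCommGroup V]
  [Module Ω V] [AddCommGroup W] [Module Ω W]

/-- `U` is invariant under the restriction of `ρ` along `f`. -/
def Inv (f : G' →* G) (ρ : Representation Ω G V) (U : Submodule Ω V) : Prop :=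
  ∀ g, ∀ v ∈ U, ρ (f g) v ∈ U

lemma Inv.sup {f : G' →* G} {ρ : Representation Ω G V} {U U' : Submodule Ω V} (h : Inv f ρ U)
    (h' : Inv f ρ U') : Inv f ρ (U ⊔ U') := by
  intro g v hv
  obtain ⟨u, hu, w, hw, rfl⟩ := Submodule.mem_sup.1 hv
  rw [map_add]
  exact Submodule.add_mem_sup (h g u hu) (h' g w hw)

lemma Inv.inf {f : G' →* G} {ρ : Representation Ω G V} {U U' : Submodule Ω V} (h : Inv f ρ U)
    (h' : Inv f ρ U') : Inv f ρ (U ⊓ U') := fun g v hv => ⟨h g v hv.1, h' g v hv.2⟩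

lemma Inv.translate {f : G' →* G} (hf : f.range.Normal) {ρ : Representation Ω G V}
    {U : Submodule Ω V} (h : Inv f ρ U) (g : G) : Inv f ρ (U.map (ρ g)) := by
  rintro n _ ⟨u, hu, rfl⟩
  obtain ⟨n', hn'⟩ : g⁻¹ * f n * g ∈ f.range := by
    have := hf.conj_mem (f n) ⟨n, rfl⟩ g⁻¹
    rwa [inv_inv] at this
  refine ⟨ρ (f n') u, h n' u hu, ?_⟩
  rw [hn']
  change (ρ g * ρ (g⁻¹ * f n * g)) u = (ρ (f n) * ρ g) u
  rw [← map_mul, ← map_mul]
  congr 2
  group

/-- every invariant subspace of the restriction to a normal subgroup has an invariant complement -/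
lemma exists_compl {f : G' →* G} (hf : f.range.Normal) {ρ : Representation Ω G V} (hρ : Irr ρ)
    [FiniteDimensional Ω V] {K : Submodule Ω V} (hK : Inv f ρ K) :
    ∃ C : Submodule Ω V, Inv f ρ C ∧ K ⊓ C = ⊥ ∧ K ⊔ C = ⊤ := by
  classical
  have := hρ.1
  obtain ⟨W, -, hW0, hW, hmin⟩ := exists_irr_sub (Res f ρ) ⊤ (fun _ _ _ => trivial) top_ne_bot
  -- a maximal invariant subspace with trivial intersection
  obtain ⟨C, ⟨hC, hKC⟩, hmax⟩ : ∃ C : Submodule Ω V, (Inv f ρ C ∧ K ⊓ C = ⊥) ∧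
      ∀ C' : Submodule Ω V, (Inv f ρ C' ∧ K ⊓ C' = ⊥) → C ≤ C' → C' = C := by
    have hne : {C : Submodule Ω V | Inv f ρ C ∧ K ⊓ C = ⊥}.Nonempty :=
      ⟨⊥, fun g v hv => by rw [Submodule.mem_bot] at hv ⊢; rw [hv, map_zero], inf_bot_eq _⟩
    obtain ⟨C, hC, hm⟩ := (wellFounded_gt (α := Submodule Ω V)).has_min _ hne
    exact ⟨C, hC, fun C' h1 h2 => by
      by_contra hne
      exact hm C' h1 (lt_of_le_of_ne h2 (Ne.symm hne))⟩
  refine ⟨C, hC, hKC, ?_⟩
  by_contra htop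
  -- some translate of `W` is not contained in `K ⊔ C`
  obtain ⟨g, hg⟩ : ∃ g : G, ¬ W.map (ρ g) ≤ K ⊔ C := by
    by_contra hall
    push Not at hall
    let T : Submodule Ω V := ⨆ g : G, W.map (ρ g)
    have hT : ∀ g, ∀ v ∈ T, ρ g v ∈ T := by
      intro g v hv
      have h1 : T.map (ρ g) ≤ T := by
        rw [Submodule.map_iSup]
        refine iSup_le fun g' => ?_
        have : (W.map (ρ g')).map (ρ g) = W.map (ρ (g * g')) := by
          rw [← Submodule.map_comp, map_mul]; rfl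
        rw [this]
        exact le_iSup (fun g : G => W.map (ρ g)) (g * g')
      exact h1 ⟨v, hv, rfl⟩
    rcases hρ.2 T hT with h | h
    · apply hW0
      rw [eq_bot_iff, ← h]
      intro w hw
      have : w ∈ W.map (ρ 1) := ⟨w, hw, by rw [map_one]; rfl⟩
      exact le_iSup (fun g : G => W.map (ρ g)) 1 this
    · apply htop
      rw [eq_top_iff, ← h]
      exact iSup_le hall
  have hgW : Inv f ρ (W.map (ρ g)) := Inv.translate hf hW g
  have hinj : Function.Injective (ρ g) := by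
    intro a b hab
    have := congrArg (ρ g⁻¹) hab
    simpa [← Module.End.mul_apply, ← map_mul] using this
  have h0 : (K ⊔ C) ⊓ W.map (ρ g) = ⊥ := by
    -- the intersection is invariant and not everything
    let I : Submodule Ω V := ((K ⊔ C) ⊓ W.map (ρ g)).map (ρ g⁻¹)
    have hI : Inv f ρ I := Inv.translate hf ((hK.sup hC).inf hgW) g⁻¹
    have hIW : I ≤ W := by
      rintro _ ⟨_, ⟨-, w, hw, rfl⟩, rfl⟩
      change (ρ g⁻¹ * ρ g) w ∈ W
      rw [← map_mul, inv_mul_cancel, map_one]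
      exact hw
    rcases hmin I hIW hI with h | h
    · rw [eq_bot_iff]
      intro v hv
      have h1 : ρ g⁻¹ v ∈ I := ⟨v, hv, rfl⟩
      rw [h, Submodule.mem_bot] at h1
      have h2 : (ρ g * ρ g⁻¹) v = 0 := by
        change ρ g (ρ g⁻¹ v) = 0
        rw [h1, map_zero]
      rw [← map_mul, mul_inv_cancel, map_one] at h2
      exact h2
    · exfalso
      apply hg
      rintro _ ⟨w, hw, rfl⟩
      rw [← h] at hw
      obtain ⟨v, hv, hv'⟩ := hw
      have : ρ g w = v := by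
        rw [← hv']
        change (ρ g * ρ g⁻¹) v = v
        rw [← map_mul, mul_inv_cancel, map_one]; rfl
      rw [this]
      exact hv.1
  have h1 : K ⊓ (C ⊔ W.map (ρ g)) = ⊥ := by
    rw [eq_bot_iff]
    rintro v ⟨hvK, hv⟩
    obtain ⟨c, hc, w, hw, rfl⟩ := Submodule.mem_sup.1 hv
    have hw0 : w ∈ (K ⊔ C) ⊓ W.map (ρ g) := by
      refine ⟨?_, hw⟩
      have : w = (c + w) - c := by abel
      rw [this]
      exact Submodule.sub_mem _ (Submodule.mem_sup_left hvK) (Submodule.mem_sup_right hc)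
    rw [h0, Submodule.mem_bot] at hw0
    rw [hw0, add_zero] at hvK ⊢
    have : c ∈ K ⊓ C := ⟨hvK, hc⟩
    rwa [hKC] at this
  have h2 := hmax _ ⟨hC.sup hgW, h1⟩ le_sup_left
  apply hg
  exact (le_sup_right.trans h2.le).trans le_sup_right

/-- **Clifford.** An irreducible subquotient of the restriction of an irreducible representation to a
normal subgroup is a subrepresentation. -/
theorem exists_hom {f : G' →* G} (hf : f.range.Normal) {ρ : Representation Ω G V} (hρ : Irr ρ)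
    [FiniteDimensional Ω V] {τ : Representation Ω G' S} (hτ : Irr τ) (h : Occ τ (Res f ρ)) :
    ∃ j : S →ₗ[Ω] V, j ≠ 0 ∧ ∀ g s, j (τ g s) = ρ (f g) (j s) := by
  obtain ⟨U, hU, F, hF, h⟩ := h
  let K : Submodule Ω V := (LinearMap.ker F).map U.subtype
  have hK : Inv f ρ K := by
    rintro g _ ⟨u, hu, rfl⟩
    refine ⟨⟨ρ (f g) u, hU g u u.2⟩, ?_, rfl⟩
    have : F ⟨ρ (f g) u, hU g u u.2⟩ = 0 := by
      have h1 := h g u
      rw [show F u = 0 from hu, map_zero] at h1
      exact h1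
    exact this
  obtain ⟨C, hC, hKC, htop⟩ := exists_compl hf hρ hK
  -- the restriction of `F` to `U ⊓ C`
  let F' : (U ⊓ C : Submodule Ω V) →ₗ[Ω] S := F ∘ₗ Submodule.inclusion inf_le_left
  have hinj : Function.Injective F' := by
    rw [injective_iff_map_eq_zero]
    rintro ⟨v, hv1, hv2⟩ hv
    have : v ∈ K ⊓ C := ⟨⟨⟨v, hv1⟩, hv, rfl⟩, hv2⟩
    rw [hKC, Submodule.mem_bot] at this
    exact Subtype.ext this
  have hsurj : Function.Surjective F' := by
    intro s
    obtain ⟨⟨v, hv⟩, rfl⟩ := hF s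
    have : v ∈ K ⊔ C := by rw [htop]; trivial
    obtain ⟨k, hk, c, hc, rfl⟩ := Submodule.mem_sup.1 this
    obtain ⟨⟨k', hk'U⟩, hk', rfl⟩ := hk
    have hcU : c ∈ U := by
      have : c = (k' + c) - k' := by abel
      rw [this]
      exact Submodule.sub_mem _ hv hk'U
    refine ⟨⟨c, hcU, hc⟩, ?_⟩
    change F ⟨c, _⟩ = F ⟨k' + c, _⟩
    have : (⟨k' + c, hv⟩ : U) = ⟨k', hk'U⟩ + ⟨c, hcU⟩ := rfl
    rw [this, map_add, show F ⟨k', hk'U⟩ = 0 from hk', zero_add]
  let e := LinearEquiv.ofBijective F' ⟨hinj, hsurj⟩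
  refine ⟨(U ⊓ C : Submodule Ω V).subtype ∘ₗ e.symm.toLinearMap, ?_, ?_⟩
  · intro h0
    obtain ⟨s, hs⟩ := @exists_ne S hτ.1 0
    have := congrArg (fun j => j s) h0
    simp at this
    exact hs this
  · intro g s
    obtain ⟨v, rfl⟩ := e.surjective s
    have h1 : τ g (e v) = e ⟨ρ (f g) v, hU g v v.2.1, hC g v v.2.2⟩ := by
      change τ g (F ⟨v, _⟩) = F ⟨ρ (f g) v, _⟩
      exact (h g ⟨v, v.2.1⟩).symm
    rw [h1]
    simp

end Pool.Agent.L5helper68.GD
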