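import Mathlib

/-!
# Restriction homomorphisms of absolute Galois groups
-/

set_option autoImplicit false

namespace Pool.Agent.L5helper68.GD

/-- the automorphism group of the algebraic closure of `L` over `L`, that is, the absolute Galois
group -/
abbrev GalG (L : Type) [Field L] := AlgebraicClosure L ≃ₐ[L] AlgebraicClosure L

/-- `r` is the restriction of automorphisms with respect to an embedding of the algebraic closures. -/
def IsRestriction (K L : Type) [Field K] [Field L] [Algebra K L] (r : GalG L →* GalG K) : Prop :=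
  ∃ e : AlgebraicClosure K →ₐ[K] AlgebraicClosure L, ∀ σ x, e (r σ x) = σ (e x)

variable {K L : Type} [Field K] [Field L] [Algebra K L]

lemma embedding_bijective [FiniteDimensional K L] (e : AlgebraicClosure K →ₐ[K] AlgebraicClosure L) :
    Function.Bijective e := by
  let _ := e.toRingHom.toAlgebra
  have : IsScalarTower K (AlgebraicClosure K) (AlgebraicClosure L) :=
    IsScalarTower.of_algebraMap_eq fun x => (e.commutes x).symm
  have h1 : Algebra.IsAlgebraic K (AlgebraicClosure L) :=
    Algebra.IsAlgebraic.trans K L (AlgebraicClosure L)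
  have h2 : Algebra.IsIntegral K (AlgebraicClosure L) := Algebra.isAlgebraic_iff_isIntegral.1 h1
  have h3 : Algebra.IsIntegral (AlgebraicClosure K) (AlgebraicClosure L) :=
    Algebra.IsIntegral.tower_top (R := K)
  exact IsAlgClosed.algebraMap_bijective_of_isIntegral

lemma IsRestriction.injective [FiniteDimensional K L] {r : GalG L →* GalG K}
    (hr : IsRestriction K L r) : Function.Injective r := by
  obtain ⟨e, he⟩ := hr
  intro σ τ h
  ext y
  obtain ⟨x, rfl⟩ := (embedding_bijective e).2 y
  rw [← he, ← he, h]

/-- an automorphism of the algebraic closure of `L` over `K` that is the identity on `L` -/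
noncomputable def liftG (G : AlgebraicClosure L ≃ₐ[K] AlgebraicClosure L)
    (h : ∀ l : L, G (algebraMap L _ l) = algebraMap L _ l) : GalG L :=
  AlgEquiv.ofRingEquiv (f := G.toRingEquiv) h

lemma IsRestriction.normal [FiniteDimensional K L] [Normal K L] {r : GalG L →* GalG K}
    (hr : IsRestriction K L r) : r.range.Normal := by
  obtain ⟨e, he⟩ := hr
  let E : AlgebraicClosure K ≃ₐ[K] AlgebraicClosure L := AlgEquiv.ofBijective e (embedding_bijective e)
  have hE : ∀ x, E x = e x := fun _ => rfl
  refine ⟨?_⟩
  rintro _ ⟨σ, rfl⟩ g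
  let G : AlgebraicClosure L ≃ₐ[K] AlgebraicClosure L := E.symm.trans (g.trans E)
  let S : AlgebraicClosure L ≃ₐ[K] AlgebraicClosure L := σ.restrictScalars K
  have hS : ∀ y, S y = σ y := fun _ => rfl
  let T : AlgebraicClosure L ≃ₐ[K] AlgebraicClosure L := G.symm.trans (S.trans G)
  have hT : ∀ l : L, T (algebraMap L _ l) = algebraMap L _ l := by
    intro l
    have h1 : G.symm (algebraMap L _ l) = algebraMap L _ (G.symm.restrictNormal L l) :=
      (AlgEquiv.restrictNormal_commutes G.symm L l).symm
    change G (S (G.symm _)) = _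
    rw [h1, hS, AlgEquiv.commutes, ← h1, AlgEquiv.apply_symm_apply]
  refine ⟨liftG T hT, ?_⟩
  ext x
  apply e.injective
  change e (r (liftG T hT) x) = _
  rw [he]
  change T (e x) = e (g (r σ (g⁻¹ x)))
  change G (S (G.symm (e x))) = _
  have h2 : G.symm (e x) = e (g⁻¹ x) := by
    change E (g.symm (E.symm (e x))) = e (g⁻¹ x)
    rw [← hE x, AlgEquiv.symm_apply_apply]; rfl
  rw [h2, hS, ← he]
  change E (g (E.symm (e _))) = _
  rw [← hE (r σ (g⁻¹ x)), AlgEquiv.symm_apply_apply]; rfl

lemma IsRestriction.finiteIndex [FiniteDimensional K L] {r : GalG L →* GalG K}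
    (hr : IsRestriction K L r) : r.range.FiniteIndex := by
  obtain ⟨e, he⟩ := hr
  let E : AlgebraicClosure K ≃ₐ[K] AlgebraicClosure L := AlgEquiv.ofBijective e (embedding_bijective e)
  have hE : ∀ x, E x = e x := fun _ => rfl
  let i : L →ₐ[K] AlgebraicClosure L := IsScalarTower.toAlgHom K L (AlgebraicClosure L)
  let F : GalG K → (L →ₐ[K] AlgebraicClosure L) := fun g =>
    (E.symm.trans (g.trans E)).toAlgHom.comp i
  have hF : ∀ g l, F g l = e (g (E.symm (algebraMap L _ l))) := fun _ _ => rfl
  have key : ∀ g g' : GalG K, F g = F g' → g⁻¹ * g' ∈ r.range := by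
    intro g g' h
    let T : AlgebraicClosure L ≃ₐ[K] AlgebraicClosure L := E.symm.trans ((g⁻¹ * g').trans E)
    have hT : ∀ l : L, T (algebraMap L _ l) = algebraMap L _ l := by
      intro l
      have h1 := hF g l
      rw [h, hF g' l] at h1
      have h2 := e.injective h1
      change E (g⁻¹ (g' (E.symm (algebraMap L _ l)))) = _
      rw [h2]
      change E ((g⁻¹ * g) (E.symm _)) = _
      rw [inv_mul_cancel]
      change E (E.symm _) = _
      rw [AlgEquiv.apply_symm_apply]
    refine ⟨liftG T hT, ?_⟩
    ext x
    apply e.injective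
    change e (r (liftG T hT) x) = _
    rw [he]
    change E ((g⁻¹ * g') (E.symm (e x))) = _
    rw [← hE x, AlgEquiv.symm_apply_apply]
    rfl
  let F' : GalG K ⧸ r.range → (L →ₐ[K] AlgebraicClosure L) := fun q => F q.out
  have hinj : Function.Injective F' := by
    intro q q' h
    have := key _ _ h
    rw [← QuotientGroup.eq] at this
    simpa using this
  have : Finite (GalG K ⧸ r.range) := Finite.of_injective F' hinj
  exact Subgroup.finiteIndex_of_finite_quotient

end Pool.Agent.L5helper68.GD
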