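import Pool.Agent.L5helper68.GD.Tens
import Pool.Agent.L5helper68.GD.Grp

/-!
# The formal properties of étale cohomology that are used, and representations of geometric origin
-/

set_option autoImplicit false

open CategoryTheory AlgebraicGeometry Representation TensorProduct

namespace Pool.Agent.L5helper68.GD

/-! ### Representations -/

/-- a linear representation of the group `G` over the field `Ω` -/
structure GRep (Ω G : Type) [Field Ω] [Group G] : Type 1 where
  /-- the space -/
  V : Type
  [addCommGroup : AddCommGroup V]
  [module : Module Ω V]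
  /-- the action -/
  ρ : Representation Ω G V

attribute [instance] GRep.addCommGroup GRep.module

section

variable {Ω G G' : Type} [Field Ω] [Group G] [Group G']

/-- the action of `g` -/
def GRep.map (A : GRep Ω G) (g : G) : A.V →ₗ[Ω] A.V := A.ρ g

/-- The linear map `f` is equivariant. -/
def IsHom (A B : GRep Ω G) (f : A.V →ₗ[Ω] B.V) : Prop := ∀ g v, f (A.map g v) = B.map g (f v)

/-- `A` is a subquotient of `B`: a quotient of a representation that embeds into `B`. -/
def IsSubquotient (A B : GRep Ω G) : Prop :=
  ∃ (T : GRep Ω G) (i : T.V →ₗ[Ω] B.V) (q : T.V →ₗ[Ω] A.V),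
    IsHom T B i ∧ Function.Injective i ∧ IsHom T A q ∧ Function.Surjective q

/-- `A` and `B` are isomorphic. -/
def IsIso (A B : GRep Ω G) : Prop := ∃ f : A.V →ₗ[Ω] B.V, IsHom A B f ∧ Function.Bijective f

/-- `A` is irreducible and finite-dimensional. -/
def IsIrreducible (A : GRep Ω G) : Prop :=
  FiniteDimensional Ω A.V ∧ Nontrivial A.V ∧
    ∀ U : Submodule Ω A.V, (∀ g, ∀ v ∈ U, A.map g v ∈ U) → U = ⊥ ∨ U = ⊤

/-- the restriction along a homomorphism of groups -/
def GRep.res (r : G' →* G) (A : GRep Ω G) : GRep Ω G' := ⟨A.V, A.ρ.comp r⟩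

/-- `A ⊗ χ ^ n` -/
def GRep.twist (χ : G →* Ωˣ) (n : ℤ) (A : GRep Ω G) : GRep Ω G := ⟨A.V, GD.twist χ n A.ρ⟩

/-- the tensor product -/
noncomputable def GRep.tensor (A B : GRep Ω G) : GRep Ω G := ⟨A.V ⊗[Ω] B.V, tprod A.ρ B.ρ⟩

/-- the (co)induced representation -/
def GRep.ind (r : G' →* G) (A : GRep Ω G') : GRep Ω G := ⟨coindV r A.ρ, coind r A.ρ⟩

end

/-! ### Galois groups -/

/-- the automorphism group of the algebraic closure of `L` over `L`, that is, the absolute Galois
group -/
def Gal (L : Type) [Field L] : Type := AlgebraicClosure L ≃ₐ[L] AlgebraicClosure L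

noncomputable instance (L : Type) [Field L] : Group (Gal L) := AlgEquiv.aut

/-- the automorphism of the algebraic closure given by an element of the Galois group -/
def act {L : Type} [Field L] (σ : Gal L) : AlgebraicClosure L ≃ₐ[L] AlgebraicClosure L := σ

/-- `r` is the restriction of automorphisms with respect to an embedding of the algebraic closures. -/
def IsRes (K L : Type) [Field K] [Field L] [Algebra K L] (r : Gal L →* Gal K) : Prop :=
  ∃ e : AlgebraicClosure K →ₐ[K] AlgebraicClosure L, ∀ σ x, e (act (r σ) x) = act σ (e x)

/-! ### Schemes and cohomology -/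

/-- schemes over the field `K` -/
abbrev Sch (K : Type) [Field K] : Type 1 := Over (Spec (CommRingCat.of K))

/-- `Y` is separated and of finite type over `K`. -/
def SepFT {K : Type} [Field K] (Y : Sch K) : Prop :=
  IsSeparated Y.hom ∧ LocallyOfFiniteType Y.hom ∧ QuasiCompact Y.hom

/-- the base change of `Y` along the field extension `L / K` -/
noncomputable def baseChange {K : Type} (L : Type) [Field K] [Field L] [Algebra K L] (Y : Sch K) :
    Sch L :=
  (Over.pullback (Spec.map (CommRingCat.ofHom (algebraMap K L)))).obj Y

/-- the scheme `Y` over `L`, considered as a scheme over `K` -/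
noncomputable def restrictScalars (K : Type) {L : Type} [Field K] [Field L] [Algebra K L]
    (Y : Sch L) : Sch K :=
  Over.mk (Y.hom ≫ Spec.map (CommRingCat.ofHom (algebraMap K L)))

/-- the product of two schemes over `K` -/
noncomputable def prod {K : Type} [Field K] (Y Z : Sch K) : Sch K :=
  Over.mk (Limits.pullback.fst Y.hom Z.hom ≫ Y.hom)

/-- a cohomology theory for schemes over fields, with values in representations of Galois groups:
`H L Y i = H^i(Y ⊗ L̄, Ω)` -/
abbrev Coh (Ω : Type) [Field Ω] := ∀ (L : Type) [Field L], Sch L → ℕ → GRep Ω (Gal L)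

/-- a character of every Galois group -/
abbrev Cyc (Ω : Type) [Field Ω] := ∀ (L : Type) [Field L], Gal L →* Ωˣ

/-- a class of representations of the Galois groups of fields -/
abbrev Cls (Ω : Type) [Field Ω] := ∀ (L : Type) [Field L], GRep Ω (Gal L) → Prop

section

variable (p : ℕ) {Ω : Type} [Field Ω] (H : Coh Ω) (χ : Cyc Ω)

/-- The cyclotomic character is compatible with restriction. -/
def Cyclotomic : Prop :=
  ∀ (K L : Type) [Field K] [Field L] [Algebra K L] [CharP K p] (r : Gal L →* Gal K),
    IsRes K L r → (χ K).comp r = χ L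

/-- Invariance under extensions of algebraically closed fields. -/
def BaseChange : Prop :=
  ∀ (K L : Type) [Field K] [Field L] [Algebra K L] [CharP K p] (r : Gal L →* Gal K),
    IsRes K L r → ∀ Y : Sch K, SepFT Y → ∀ i : ℕ, IsIso ((H K Y i).res r) (H L (baseChange L Y) i)

/-- For a finite extension `L` of `K`, the cohomology of a scheme over `L`, considered as a scheme over
`K`, is the induced representation. -/
def FiniteInduced : Prop :=
  ∀ (K L : Type) [Field K] [Field L] [Algebra K L] [FiniteDimensional K L] [CharP K p]
    (r : Gal L →* Gal K), IsRes K L r → ∀ Y : Sch L, SepFT Y → ∀ i : ℕ,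
      IsIso ((H L Y i).ind r) (H K (restrictScalars K Y) i)

/-- Künneth formula: `H^i(Y) ⊗ H^j(Z)` is a summand of `H^(i + j)(Y × Z)`. -/
def Kunneth : Prop :=
  ∀ (K : Type) [Field K] [CharP K p] (Y Z : Sch K), SepFT Y → SepFT Z → ∀ i j : ℕ,
    IsSubquotient ((H K Y i).tensor (H K Z j)) (H K (prod Y Z) (i + j))

/-- There are a group `D` and homomorphisms `a` from `D` to the Galois group of `M` and `s` from `D`
onto the Galois group of `K'`, which agree in the Galois group of `K`, such that `D` acts in the same way
on the cohomology of `Y` and on the cohomology of `Y'`. -/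
def SpecializesTo {K M K' : Type} [Field K] [Field M] [Field K'] [Algebra K K']
    (r : Gal M →* Gal K) (Y : Sch M) (i : ℕ) (Y' : Sch K') : Prop :=
  ∃ (D : Type) (_ : Group D) (a : D →* Gal M) (s : D →* Gal K') (r' : Gal K' →* Gal K),
    Function.Surjective s ∧ IsRes K K' r' ∧ r'.comp s = r.comp a ∧
    IsIso ((H K' Y' i).res s) ((H M Y i).res a)

/-- The cohomology of `Y` specializes to the cohomology of a scheme over a finite normal extension of
`K`. -/
def Specializes {K M : Type} [Field K] [Field M] (r : Gal M →* Gal K) (Y : Sch M) (i : ℕ) : Prop :=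
  ∃ (K' : Type) (_ : Field K') (_ : Algebra K K') (Y' : Sch K'),
    FiniteDimensional K K' ∧ Normal K K' ∧ SepFT Y' ∧ SpecializesTo H r Y i Y'

/-- Deligne's generic base change theorem: let `M` be the function field of a normal scheme `S` of
finite type over `K` and let `Y` be the generic fibre of a scheme over `S`. On the decomposition group
`D` of a closed point `s` of a dense open subscheme the action on the cohomology of `Y` is given by the
surjection onto the Galois group of the residue field and the cohomology of the fibre over `s`. (`K'` is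
a finite normal extension of `K` that contains the residue field.) -/
def GenericBaseChange : Prop :=
  ∀ (K M : Type) [Field K] [Field M] [Algebra K M] [CharP K p],
    (⊤ : IntermediateField K M).FG → ∀ r : Gal M →* Gal K, IsRes K M r →
    ∀ Y : Sch M, SepFT Y → ∀ i : ℕ, Specializes H r Y i

/-- The formal properties of `ℓ`-adic cohomology for the fields of characteristic `p`:
`H L Y i = H^i(Y ⊗ L̄, Ω)` with the action of the Galois group of `L`, and `χ L` is the cyclotomic
character. -/
structure IsEtaleTheory : Prop where
  cyclotomic : Cyclotomic p χ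
  base_change : BaseChange p H
  finite : FiniteInduced p H
  kunneth : Kunneth p H
  generic : GenericBaseChange p H

/-- **Geometric origin.** Some Tate twist of `A` is a subquotient of the cohomology of a separated
scheme of finite type over `L`. -/
def GO : Cls Ω := fun L _ A =>
  ∃ Y : Sch L, SepFT Y ∧ ∃ (i : ℕ) (n : ℤ), IsSubquotient (A.twist (χ L) n) (H L Y i)

end

section

variable (p : ℕ) {Ω : Type} [Field Ω] (χ : Cyc Ω) (𝓒 : Cls Ω)

/-- The class is closed under subquotients. -/
def ClosedSub : Prop :=
  ∀ (L : Type) [Field L] [CharP L p] (A B : GRep Ω (Gal L)), IsSubquotient B A → 𝓒 L A → 𝓒 L B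

/-- The class is closed under Tate twists. -/
def ClosedTwist : Prop :=
  ∀ (L : Type) [Field L] [CharP L p] (A : GRep Ω (Gal L)) (n : ℤ), 𝓒 L A → 𝓒 L (A.twist (χ L) n)

/-- The class is closed under tensor products. -/
def ClosedTensor : Prop :=
  ∀ (L : Type) [Field L] [CharP L p] (A B : GRep Ω (Gal L)), 𝓒 L A → 𝓒 L B → 𝓒 L (A.tensor B)

/-- The class is closed under restriction to arbitrary extension fields. -/
def ClosedRestrict : Prop :=
  ∀ (K L : Type) [Field K] [Field L] [Algebra K L] [CharP K p] (r : Gal L →* Gal K)
    (A : GRep Ω (Gal K)), IsRes K L r → 𝓒 K A → 𝓒 L (A.res r)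

/-- The class is closed under induction from finite extensions. -/
def ClosedInduce : Prop :=
  ∀ (K L : Type) [Field K] [Field L] [Algebra K L] [FiniteDimensional K L] [CharP K p]
    (r : Gal L →* Gal K) (A : GRep Ω (Gal L)), IsRes K L r → 𝓒 L A → 𝓒 K (A.ind r)

/-- **Descent along finitely generated extensions.** An irreducible representation `A` of the Galois
group of `K` is in the class if a nonzero subquotient `B` of its restriction to a finitely generated
extension field `M` of `K` is in it. -/
def ClosedDescent : Prop :=
  ∀ (K M : Type) [Field K] [Field M] [Algebra K M] [CharP K p],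
    (⊤ : IntermediateField K M).FG → ∀ r : Gal M →* Gal K, IsRes K M r →
    ∀ (A : GRep Ω (Gal K)) (B : GRep Ω (Gal M)), IsIrreducible A → Nontrivial B.V →
      IsSubquotient B (A.res r) → 𝓒 M B → 𝓒 K A

/-- For `M / K` finitely generated, an irreducible representation `A` of the Galois group of `K` and a
nonzero subquotient `B` of its restriction to `M`: `A` is in the class if and only if `B` is. -/
def DescentIff : Prop :=
  ∀ (K M : Type) [Field K] [Field M] [Algebra K M] [CharP K p],
    (⊤ : IntermediateField K M).FG → ∀ r : Gal M →* Gal K, IsRes K M r →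
    ∀ (A : GRep Ω (Gal K)) (B : GRep Ω (Gal M)), IsIrreducible A → Nontrivial B.V →
      IsSubquotient B (A.res r) → (𝓒 K A ↔ 𝓒 M B)

/-- The class is closed under subquotients, Tate twists, tensor products, restriction, induction from
finite extensions, and descent along finitely generated extensions. -/
structure IsClosedClass : Prop where
  sub : ClosedSub p 𝓒
  twist : ClosedTwist p χ 𝓒
  tensor : ClosedTensor p 𝓒
  restrict : ClosedRestrict p 𝓒
  induce : ClosedInduce p 𝓒
  descend : ClosedDescent p 𝓒

/-- In characteristic `p` all members of `𝓛` are members of `𝓒`. -/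
def Contained (𝓛 : Cls Ω) : Prop :=
  ∀ (L : Type) [Field L] [CharP L p] (A : GRep Ω (Gal L)), 𝓛 L A → 𝓒 L A

/-- The smallest closed class that contains `𝓛`. -/
def Generated (𝓛 : Cls Ω) : Cls Ω := fun L _ A =>
  ∀ 𝓒 : Cls Ω, IsClosedClass p χ 𝓒 → Contained p 𝓒 𝓛 → 𝓒 L A

end

end Pool.Agent.L5helper68.GD
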