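import Pool.Agent.L5helper68.GD.Main

/-!
# Reduction to the rational function fields over the prime field
-/

set_option autoImplicit false

open Representation

namespace Pool.Agent.L5helper68.GD

lemma exists_isRes (K L : Type) [Field K] [Field L] [Algebra K L] :
    ∃ r : Gal L →* Gal K, IsRes K L r := by
  let e : AlgebraicClosure K →ₐ[K] AlgebraicClosure L := IsAlgClosed.lift
  let _ := e.toRingHom.toAlgebra
  have : IsScalarTower K (AlgebraicClosure K) (AlgebraicClosure L) :=
    IsScalarTower.of_algebraMap_eq fun x => (e.commutes x).symm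
  let ρ : GalG L →* (AlgebraicClosure L ≃ₐ[K] AlgebraicClosure L) :=
    AlgEquiv.restrictScalarsHom K
  let r : GalG L →* GalG K := (AlgEquiv.restrictNormalHom (AlgebraicClosure K)).comp ρ
  refine ⟨r, e, fun σ x => ?_⟩
  exact AlgEquiv.restrictNormal_commutes (ρ σ) (AlgebraicClosure K) x

/-- the field `F_p(t_1, …, t_d)` -/
abbrev RatFn (p d : ℕ) [Fact p.Prime] : Type := FractionRing (MvPolynomial (Fin d) (ZMod p))

section

variable (p : ℕ) {Ω : Type} [Field Ω] (𝓒 : Cls Ω)

/-- All members of the class are irreducible. -/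
def AllIrreducible : Prop :=
  ∀ (L : Type) [Field L] [CharP L p] (A : GRep Ω (Gal L)), 𝓒 L A → IsIrreducible A

/-- The irreducible subquotients of the restrictions of the members to finitely generated extensions
are members. -/
def StableRestrict : Prop :=
  ∀ (K M : Type) [Field K] [Field M] [Algebra K M] [CharP K p],
    (⊤ : IntermediateField K M).FG → ∀ r : Gal M →* Gal K, IsRes K M r →
    ∀ (A : GRep Ω (Gal K)) (B : GRep Ω (Gal M)), 𝓒 K A → IsIrreducible B →
      IsSubquotient B (A.res r) → 𝓒 M B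

/-- The irreducible subquotients of the representations induced from the members over finite extensions
are members. -/
def StableInduce : Prop :=
  ∀ (K L : Type) [Field K] [Field L] [Algebra K L] [FiniteDimensional K L] [CharP K p]
    (r : Gal L →* Gal K), IsRes K L r → ∀ (A : GRep Ω (Gal L)) (B : GRep Ω (Gal K)),
    𝓒 L A → IsIrreducible B → IsSubquotient B (A.ind r) → 𝓒 K B

/-- A stable class of irreducible representations, for instance those in the question. -/
structure IsStable : Prop where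
  irr : AllIrreducible p 𝓒
  restrict : StableRestrict p 𝓒
  induce : StableInduce p 𝓒

/-- Every member `A` of the class `𝓒`, over `K`, has over some finite extension `M` of `K` an
irreducible constituent in the class `𝓟`. -/
def Potentially (𝓟 : Cls Ω) : Prop :=
  ∀ (K : Type) [Field K] [CharP K p] (A : GRep Ω (Gal K)), 𝓒 K A →
    ∃ (M : Type) (_ : Field M) (_ : Algebra K M) (r : Gal M →* Gal K) (B : GRep Ω (Gal M)),
      FiniteDimensional K M ∧ IsRes K M r ∧ IsIrreducible B ∧ IsSubquotient B (A.res r) ∧ 𝓟 M B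

/-- All representations of the Galois group of `L` in the class `𝓒` are of geometric origin. -/
def AllGO (H : Coh Ω) (χ : Cyc Ω) (L : Type) [Field L] : Prop :=
  ∀ A : GRep Ω (Gal L), 𝓒 L A → GO H χ L A

/-- All representations in the class `𝓒` of the Galois groups of the finitely generated fields of
characteristic `p` of transcendence degree at most `d` are of geometric origin. -/
def AllGOUpTo [Fact p.Prime] (H : Coh Ω) (χ : Cyc Ω) (d : ℕ) : Prop :=
  ∀ (K : Type) [Field K] [Algebra (ZMod p) K], (⊤ : IntermediateField (ZMod p) K).FG →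
    Algebra.trdeg (ZMod p) K ≤ d → AllGO 𝓒 H χ K

end

variable {p : ℕ} {Ω : Type} [Field Ω] {H : Coh Ω} {χ : Cyc Ω} {𝓒 : Cls Ω}

lemma exists_irreducible {G : Type} [Group G] (A : GRep Ω G) [FiniteDimensional Ω A.V]
    [Nontrivial A.V] : ∃ (W : Submodule Ω A.V) (hW : ∀ g, ∀ v ∈ W, A.ρ g v ∈ W),
      IsIrreducible (⟨W, subRep A.ρ W hW⟩ : GRep Ω G) ∧
      IsSubquotient (⟨W, subRep A.ρ W hW⟩ : GRep Ω G) A := by
  obtain ⟨W, hW, h1, h2⟩ := exists_irr A.ρ
  exact ⟨W, hW, ⟨inferInstanceAs (FiniteDimensional Ω W), h1⟩, isSubquotient_iff.2 h2⟩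

/-- descent along finitely generated extensions -/
theorem allGO_of_fg (hE : IsEtaleTheory p H χ) (h𝓒 : IsStable p 𝓒) {K M : Type} [Field K] [Field M]
    [Algebra K M] [CharP K p] (hM : (⊤ : IntermediateField K M).FG) (h : AllGO 𝓒 H χ M) :
    AllGO 𝓒 H χ K := by
  intro A hA
  obtain ⟨r, hr⟩ := exists_isRes K M
  have hirr := h𝓒.irr K A hA
  have : FiniteDimensional Ω (A.res r).V := hirr.1
  have : Nontrivial (A.res r).V := hirr.2.1
  obtain ⟨W, hW, h1, h2⟩ := exists_irreducible (A.res r)
  exact go_descend hE hM hr hirr h1.2.1 h2 (h _ (h𝓒.restrict K M hM r hr A _ hA h1 h2))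

/-- the induced representation is finite-dimensional -/
lemma finiteDimensional_coindV {G G' : Type} [Group G] [Group G'] {f : G' →* G}
    (hfin : f.range.FiniteIndex) {V : Type} [AddCommGroup V] [Module Ω V] [FiniteDimensional Ω V]
    (ρ : Representation Ω G' V) : FiniteDimensional Ω (coindV f ρ) := by
  let Q := Quotient (QuotientGroup.rightRel f.range)
  have hQ : Finite Q := by
    have : Finite (G ⧸ f.range) := inferInstance
    exact Finite.of_equiv _ (QuotientGroup.quotientRightRelEquivQuotientLeftRel f.range).symm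
  let F : coindV f ρ →ₗ[Ω] (Q → V) :=
    { toFun := fun h q => h.1 q.out
      map_add' := fun a b => rfl
      map_smul' := fun c a => rfl }
  refine Module.Finite.of_injective F ?_
  rw [injective_iff_map_eq_zero]
  intro h hh
  apply Subtype.ext
  funext y
  change h.1 y = 0
  have h1 : (Quotient.mk'' (Quotient.mk'' y : Q).out : Q) = Quotient.mk'' y := Quotient.out_eq' _
  rw [Quotient.eq'', QuotientGroup.rightRel_apply] at h1
  obtain ⟨g, hg⟩ := h1
  have h2 : y = f g * (Quotient.mk'' y : Q).out := by rw [hg]; group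
  have h3 : h.1 (Quotient.mk'' y : Q).out = 0 := congrFun hh (Quotient.mk'' y)
  rw [h2, h.2 g, h3, map_zero]

/-- finite extensions -/
theorem allGO_of_finite (hE : IsEtaleTheory p H χ) (h𝓒 : IsStable p 𝓒) {K L : Type} [Field K]
    [Field L] [Algebra K L] [FiniteDimensional K L] [CharP K p] (h : AllGO 𝓒 H χ K) :
    AllGO 𝓒 H χ L := by
  intro A hA
  have : CharP L p := charP_ext (K := K) p
  obtain ⟨r, hr⟩ := exists_isRes K L
  have hirr := h𝓒.irr L A hA
  have : FiniteDimensional Ω A.V := hirr.1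
  have hnt : Nontrivial A.V := hirr.2.1
  have : FiniteDimensional Ω (A.ind r).V := finiteDimensional_coindV hr.finiteIndex A.ρ
  have : Nontrivial (A.ind r).V := by
    obtain ⟨v, hv⟩ := exists_ne (0 : A.V)
    obtain ⟨x, hx, hx1, -⟩ := exists_supported hr.injective A.ρ v
    refine ⟨⟨⟨x, hx⟩, 0, fun h0 => hv ?_⟩⟩
    rw [← hx1]
    exact congrFun (congrArg Subtype.val h0) 1
  obtain ⟨W, hW, h1, h2⟩ := exists_irreducible (A.ind r)
  have hB := h _ (h𝓒.induce K L r hr A _ hA h1 h2)
  refine go_sub (go_restrict hE hr hB) ?_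
  -- evaluation at `1`
  rw [isSubquotient_iff]
  let F : W →ₗ[Ω] A.V :=
    { toFun := fun w => w.1.1 1
      map_add' := fun a b => rfl
      map_smul' := fun c a => rfl }
  have hF : ∀ g (w : W), F ⟨coind r A.ρ (r g) w.1, hW (r g) w.1 w.2⟩ = A.ρ g (F w) := by
    intro g w
    change w.1.1 (1 * r g) = A.ρ g (w.1.1 1)
    rw [one_mul, ← w.1.2 g 1, mul_one]
  have hsurj : Function.Surjective F := by
    rw [← LinearMap.range_eq_top]
    rcases hirr.2.2 (LinearMap.range F) (by
      rintro g _ ⟨w, rfl⟩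
      exact ⟨_, hF g w⟩) with h0 | h0
    · exfalso
      obtain ⟨w, hw⟩ := @exists_ne W h1.2.1 0
      apply hw
      apply Subtype.ext
      apply Subtype.ext
      funext y
      change w.1.1 y = 0
      have h3 : F ⟨coind r A.ρ y w.1, hW y w.1 w.2⟩ ∈ LinearMap.range F := ⟨_, rfl⟩
      rw [h0, Submodule.mem_bot] at h3
      have h4 : w.1.1 (1 * y) = 0 := h3
      rwa [one_mul] at h4
    · exact h0
  exact ⟨⊤, fun _ _ _ => trivial, F ∘ₗ (⊤ : Submodule Ω W).subtype,
    fun v => by obtain ⟨w, hw⟩ := hsurj v; exact ⟨⟨w, trivial⟩, hw⟩, fun g w => hF g w.1⟩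

section

variable (p : ℕ) [Fact p.Prime]

lemma fg_of_essFiniteType {K M : Type} [Field K] [Field M] [Algebra (ZMod p) K]
    [Algebra (ZMod p) M] [Algebra.EssFiniteType (ZMod p) M] [Algebra K M] :
    (⊤ : IntermediateField K M).FG := by
  have : IsScalarTower (ZMod p) K M := IsScalarTower.of_algebraMap_eq' (Subsingleton.elim _ _)
  have : Algebra.EssFiniteType K M := Algebra.EssFiniteType.of_comp (ZMod p) K M
  exact IntermediateField.fg_top K M

instance (d : ℕ) : Algebra.EssFiniteType (ZMod p) (RatFn p d) :=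
  Algebra.EssFiniteType.comp (ZMod p) (MvPolynomial (Fin d) (ZMod p)) (RatFn p d)

lemma exists_algebra_ratFn {e d : ℕ} (h : e ≤ d) : Nonempty (RatFn p e →+* RatFn p d) := by
  have h1 : Function.Injective ((algebraMap (MvPolynomial (Fin d) (ZMod p)) (RatFn p d)).comp
      (MvPolynomial.rename (Fin.castLE h) :
        MvPolynomial (Fin e) (ZMod p) →ₐ[ZMod p] MvPolynomial (Fin d) (ZMod p)).toRingHom) :=
    (IsFractionRing.injective _ _).comp
      (MvPolynomial.rename_injective _ (Fin.castLE_injective h))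
  exact ⟨IsFractionRing.lift h1⟩

end

/-- **Reduction to the rational function field over the prime field.** -/
theorem allGO_iff (p : ℕ) [Fact p.Prime] {Ω : Type} [Field Ω] {H : Coh Ω} {χ : Cyc Ω} {𝓒 : Cls Ω}
    (hE : IsEtaleTheory p H χ) (h𝓒 : IsStable p 𝓒) (d : ℕ) :
    AllGO 𝓒 H χ (RatFn p d) ↔ AllGOUpTo p 𝓒 H χ d := by
  have hchar : ∀ e : ℕ, CharP (RatFn p e) p := fun e =>
    charP_of_injective_algebraMap (algebraMap (ZMod p) (RatFn p e)).injective p
  constructor
  · intro h K _ _ hFG htr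
    have : Algebra.EssFiniteType (ZMod p) K := IntermediateField.fg_top_iff.1 hFG
    obtain ⟨s, hs⟩ := exists_finset_isTranscendenceBasis (ZMod p) K
    have hcard : s.card ≤ d := by
      have h1 := hs.cardinalMk_eq_trdeg
      rw [← h1] at htr
      simpa using htr
    let x : Fin s.card → K := fun i => (s.equivFin.symm i : K)
    have hx : IsTranscendenceBasis (ZMod p) x := hs.comp_equiv s.equivFin.symm
    let E := IntermediateField.adjoin (ZMod p) (Set.range x)
    let a : RatFn p s.card →+* K := (algebraMap E K).comp hx.1.aevalEquivField.toRingEquiv.toRingHom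
    let _ : Algebra (RatFn p s.card) K := a.toAlgebra
    have hEK : Algebra.IsAlgebraic E K := hx.isAlgebraic_field
    let _ : Algebra (RatFn p s.card) E := hx.1.aevalEquivField.toRingEquiv.toRingHom.toAlgebra
    have : IsScalarTower (RatFn p s.card) E K := IsScalarTower.of_algebraMap_eq fun _ => rfl
    have hRE : Algebra.IsAlgebraic (RatFn p s.card) E := by
      refine ⟨fun y => ?_⟩
      obtain ⟨z, rfl⟩ := hx.1.aevalEquivField.surjective y
      exact isAlgebraic_algebraMap (R := RatFn p s.card) (A := E) z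
    have : Algebra.IsAlgebraic (RatFn p s.card) K := Algebra.IsAlgebraic.trans _ E K
    have : IsScalarTower (ZMod p) (RatFn p s.card) K :=
      IsScalarTower.of_algebraMap_eq' (Subsingleton.elim _ _)
    have : Algebra.EssFiniteType (RatFn p s.card) K :=
      Algebra.EssFiniteType.of_comp (ZMod p) _ K
    have : FiniteDimensional (RatFn p s.card) K := Algebra.finite_of_essFiniteType_of_isAlgebraic
    have : CharP (RatFn p s.card) p := hchar _
    refine allGO_of_finite hE h𝓒 (K := RatFn p s.card) ?_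
    obtain ⟨b⟩ := exists_algebra_ratFn p hcard
    let _ : Algebra (RatFn p s.card) (RatFn p d) := b.toAlgebra
    exact allGO_of_fg hE h𝓒 (fg_of_essFiniteType p) h
  · intro h
    refine h (RatFn p d) (IntermediateField.fg_top _ _) ?_
    have h1 : Algebra.IsAlgebraic (MvPolynomial (Fin d) (ZMod p)) (RatFn p d) :=
      IsLocalization.isAlgebraic _ (nonZeroDivisors (MvPolynomial (Fin d) (ZMod p)))
    rw [← trdeg_add_eq (ZMod p) (MvPolynomial (Fin d) (ZMod p)) (A := RatFn p d),
      trdeg_eq_zero_iff.2 h1, add_zero, MvPolynomial.trdeg_of_isDomain]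
    simp

/-- **Potential properties.** -/
theorem allGOUpTo_of_potentially (p : ℕ) [Fact p.Prime] {Ω : Type} [Field Ω] {H : Coh Ω}
    {χ : Cyc Ω} {𝓒 𝓟 : Cls Ω} (hE : IsEtaleTheory p H χ) (h𝓒 : IsStable p 𝓒)
    (hP : Potentially p 𝓒 𝓟) (d : ℕ) (h : AllGOUpTo p 𝓟 H χ d) : AllGOUpTo p 𝓒 H χ d := by
  intro K _ _ hFG htr A hA
  have : CharP K p := charP_of_injective_algebraMap (algebraMap (ZMod p) K).injective p
  obtain ⟨M, _, _, r, B, hfin, hr, hB, hBA, hPB⟩ := hP K A hA
  have : Algebra.EssFiniteType (ZMod p) K := IntermediateField.fg_top_iff.1 hFG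
  let _ : Algebra (ZMod p) M := ((algebraMap K M).comp (algebraMap (ZMod p) K)).toAlgebra
  have : IsScalarTower (ZMod p) K M := IsScalarTower.of_algebraMap_eq fun _ => rfl
  have : Algebra.EssFiniteType (ZMod p) M := Algebra.EssFiniteType.comp (ZMod p) K M
  have htr' : Algebra.trdeg (ZMod p) M ≤ d := by
    have h0 : Algebra.trdeg K M = 0 := trdeg_eq_zero_iff.2 inferInstance
    rw [← trdeg_add_eq (ZMod p) K (A := M), h0, add_zero]
    exact htr
  have hFG' : (⊤ : IntermediateField (ZMod p) M).FG := IntermediateField.fg_top _ _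
  exact go_descend hE (IntermediateField.fg_top K M) hr (h𝓒.irr K A hA) hB.2.1 hBA
    (h M hFG' htr' B hPB)

theorem main_tfae (p : ℕ) [Fact p.Prime] {Ω : Type} [Field Ω] {H : Coh Ω}
    {χ : Cyc Ω} {𝓒 𝓟 : Cls Ω} (hE : IsEtaleTheory p H χ) (h𝓒 : IsStable p 𝓒)
    (hP : Potentially p 𝓒 𝓟) (hsub : Contained p 𝓒 𝓟) (d : ℕ) :
    List.TFAE [AllGO 𝓒 H χ (RatFn p d), AllGOUpTo p 𝓒 H χ d, AllGOUpTo p 𝓟 H χ d] := by
  tfae_have 1 ↔ 2 := allGO_iff p hE h𝓒 d
  tfae_have 3 → 2 := allGOUpTo_of_potentially p hE h𝓒 hP d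
  tfae_have 2 → 3 := by
    intro h K _ _ hFG htr A hA
    have : CharP K p := charP_of_injective_algebraMap (algebraMap (ZMod p) K).injective p
    exact h K hFG htr A (hsub K A hA)
  tfae_finish

end Pool.Agent.L5helper68.GD
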