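import Pool.Agent.L5helper68.GD.Cliff

/-!
# Frobenius reciprocity for subquotients of coinduced representations
-/

set_option autoImplicit false

open Representation

namespace Pool.Agent.L5helper68.GD

variable {Ω : Type} [Field Ω] {G G' : Type} [Group G] [Group G']
  {S T V W : Type} [AddCommGroup S] [Module Ω S] [AddCommGroup T] [Module Ω T] [AddCommGroup V]
  [Module Ω V] [AddCommGroup W] [Module Ω W]

/-- the function supported on the range of `f` -/
lemma exists_supported {f : G' →* G} (hf : Function.Injective f) (A : Representation Ω G' W)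
    (w : W) : ∃ h ∈ coindV f A, h 1 = w ∧ ∀ x, x ∉ f.range → h x = 0 := by
  classical
  refine ⟨fun x => if hx : x ∈ f.range then A hx.choose w else 0, ?_, ?_, ?_⟩
  · intro g x
    by_cases hx : x ∈ f.range
    · have hgx : f g * x ∈ f.range := f.range.mul_mem ⟨g, rfl⟩ hx
      simp only [dif_pos hx, dif_pos hgx]
      have h1 : hgx.choose = g * hx.choose := by
        apply hf
        rw [hgx.choose_spec, map_mul, hx.choose_spec]
      rw [h1, map_mul]; rfl
    · have hgx : f g * x ∉ f.range := by
        intro h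
        apply hx
        have : x = (f g)⁻¹ * (f g * x) := by group
        rw [this]
        exact f.range.mul_mem (f.range.inv_mem ⟨g, rfl⟩) h
      simp only [dif_neg hx, dif_neg hgx, map_zero]
  · have h1 : (1 : G) ∈ f.range := f.range.one_mem
    simp only [dif_pos h1]
    have : h1.choose = 1 := hf (by rw [h1.choose_spec, map_one])
    rw [this, map_one]; rfl
  · intro x hx
    simp only [dif_neg hx]

/-- **Frobenius reciprocity.** -/
theorem occ_coind {f : G' →* G} (hf : Function.Injective f) (hfin : f.range.FiniteIndex)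
    {ρ : Representation Ω G V} (hρ : Irr ρ) {A : Representation Ω G' W}
    {τ : Representation Ω G' S} (h : Occ τ A) (j : S →ₗ[Ω] V) (hj : j ≠ 0)
    (heq : ∀ g s, j (τ g s) = ρ (f g) (j s)) : Occ ρ (coind f A) := by
  classical
  obtain ⟨U, hU, F, hF, h⟩ := h
  -- the composition `U → V`
  let J : U →ₗ[Ω] V := j ∘ₗ F
  have hJ : ∀ g (u : U), J ⟨A g u, hU g u u.2⟩ = ρ (f g) (J u) := by
    intro g u
    change j (F _) = _
    rw [h g u, heq]; rfl
  -- functions with values in `U`
  let E : Submodule Ω (coindV f A) :=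
    { carrier := {x | ∀ y, x.1 y ∈ U}
      add_mem' := fun ha hb y => U.add_mem (ha y) (hb y)
      zero_mem' := fun _ => U.zero_mem
      smul_mem' := fun c _ ha y => U.smul_mem c (ha y) }
  have hE : ∀ g, ∀ v ∈ E, coind f A g v ∈ E := fun g v hv y => hv (y * g)
  -- the summand of a coset
  let Q := Quotient (QuotientGroup.rightRel f.range)
  have hQ : Finite Q := by
    have : Finite (G ⧸ f.range) := inferInstance
    exact Finite.of_equiv _ (QuotientGroup.quotientRightRelEquivQuotientLeftRel f.range).symm
  have : Fintype Q := Fintype.ofFinite Q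
  let term : E → G → V := fun x y => ρ y⁻¹ (J ⟨x.1.1 y, x.2 y⟩)
  have hterm : ∀ (x : E) (y y' : G), (QuotientGroup.rightRel f.range).r y y' →
      term x y = term x y' := by
    intro x y y' hy
    rw [QuotientGroup.rightRel_apply] at hy
    obtain ⟨g, hg⟩ := hy
    have hy' : y' = f g * y := by rw [hg]; group
    subst hy'
    have h1 : x.1.1 (f g * y) = A g (x.1.1 y) := x.1.2 g y
    change ρ y⁻¹ (J ⟨x.1.1 y, x.2 y⟩) = ρ (f g * y)⁻¹ (J ⟨x.1.1 (f g * y), x.2 (f g * y)⟩)
    have h2 : (⟨x.1.1 (f g * y), x.2 (f g * y)⟩ : U) = ⟨A g (x.1.1 y), hU g _ (x.2 y)⟩ :=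
      Subtype.ext h1
    rw [h2, hJ g ⟨x.1.1 y, x.2 y⟩, mul_inv_rev]
    change _ = (ρ (y⁻¹ * (f g)⁻¹) * ρ (f g)) _
    rw [← map_mul]
    congr 2
    group
  let tq : E → Q → V := fun x => Quotient.lift (term x) (hterm x)
  have htq_add : ∀ x y q, tq (x + y) q = tq x q + tq y q := by
    intro x y q
    induction q using Quotient.inductionOn with
    | _ q =>
      change ρ q⁻¹ (J ⟨x.1.1 q + y.1.1 q, _⟩) = ρ q⁻¹ (J ⟨x.1.1 q, _⟩) + ρ q⁻¹ (J ⟨y.1.1 q, _⟩)
      rw [← map_add, ← map_add]; rfl
  have htq_smul : ∀ (c : Ω) x q, tq (c • x) q = c • tq x q := by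
    intro c x q
    induction q using Quotient.inductionOn with
    | _ q =>
      change ρ q⁻¹ (J ⟨c • x.1.1 q, _⟩) = c • ρ q⁻¹ (J ⟨x.1.1 q, _⟩)
      rw [← map_smul, ← map_smul]; rfl
  let Φ : E →ₗ[Ω] V :=
    { toFun := fun x => ∑ q, tq x q
      map_add' := fun x y => by simp only [htq_add, Finset.sum_add_distrib]
      map_smul' := fun c x => by simp only [htq_smul, Finset.smul_sum, RingHom.id_apply] }
  -- equivariance
  have hΦ : ∀ g (x : E), Φ ⟨coind f A g x, hE g x x.2⟩ = ρ g (Φ x) := by
    intro g x
    change ∑ q, tq _ q = ρ g (∑ q, tq x q)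
    rw [map_sum]
    let m : Q ≃ Q :=
      { toFun := Quotient.map' (· * g) (fun a b hab => by
          rw [QuotientGroup.rightRel_apply] at hab ⊢
          have : b * g * (a * g)⁻¹ = b * a⁻¹ := by group
          rwa [this])
        invFun := Quotient.map' (· * g⁻¹) (fun a b hab => by
          rw [QuotientGroup.rightRel_apply] at hab ⊢
          have : b * g⁻¹ * (a * g⁻¹)⁻¹ = b * a⁻¹ := by group
          rwa [this])
        left_inv := fun q => by
          induction q using Quotient.inductionOn' with
          | _ q => simp [Quotient.map'_mk'', mul_assoc]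
        right_inv := fun q => by
          induction q using Quotient.inductionOn' with
          | _ q => simp [Quotient.map'_mk'', mul_assoc] }
    refine Fintype.sum_equiv m _ _ fun q => ?_
    induction q using Quotient.inductionOn' with
    | _ q =>
      change ρ q⁻¹ (J ⟨x.1.1 (q * g), _⟩) = ρ g (ρ (q * g)⁻¹ (J ⟨x.1.1 (q * g), _⟩))
      rw [mul_inv_rev]
      change _ = (ρ g * ρ (g⁻¹ * q⁻¹)) _
      rw [← map_mul]
      congr 2
      group
  -- the image is not zero
  have hne : LinearMap.range Φ ≠ ⊥ := by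
    intro hbot
    apply hj
    ext s
    obtain ⟨u, rfl⟩ := hF s
    obtain ⟨x, hx, hx1, hx0⟩ := exists_supported hf A (u : W)
    have hxU : ∀ y, x y ∈ U := by
      intro y
      by_cases hy : y ∈ f.range
      · obtain ⟨g, rfl⟩ := hy
        have := hx g 1
        rw [mul_one, hx1] at this
        rw [this]
        exact hU g u u.2
      · rw [hx0 y hy]; exact U.zero_mem
    let x' : E := ⟨⟨x, hx⟩, hxU⟩
    have h1 : Φ x' = J u := by
      change ∑ q, tq x' q = J u
      rw [Finset.sum_eq_single (Quotient.mk'' (1 : G) : Q)]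
      · change ρ (1 : G)⁻¹ (J ⟨x 1, _⟩) = J u
        rw [inv_one, map_one]
        change J ⟨x 1, _⟩ = J u
        congr 1
        exact Subtype.ext hx1
      · intro q _ hq
        induction q using Quotient.inductionOn' with
        | _ q =>
          have hq' : q ∉ f.range := by
            intro hmem
            apply hq
            rw [eq_comm, Quotient.eq'', QuotientGroup.rightRel_apply]
            simpa using hmem
          change ρ q⁻¹ (J ⟨x q, _⟩) = 0
          have : (⟨x q, hxU q⟩ : U) = 0 := Subtype.ext (hx0 q hq')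
          rw [this, map_zero, map_zero]
      · intro h; exact absurd (Finset.mem_univ _) h
    have h2 : Φ x' ∈ LinearMap.range Φ := ⟨x', rfl⟩
    rw [hbot, Submodule.mem_bot, h1] at h2
    exact h2
  have hrange : LinearMap.range Φ = ⊤ := by
    rcases hρ.2 (LinearMap.range Φ) (by
      rintro g _ ⟨x, rfl⟩
      exact ⟨_, hΦ g x⟩) with h | h
    · exact absurd h hne
    · exact h
  exact ⟨E, hE, Φ, LinearMap.range_eq_top.1 hrange, hΦ⟩

end Pool.Agent.L5helper68.GD
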