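import Pool.Agent.L5helper68.GD.Def
import Pool.Agent.L5helper68.GD.Ind

/-!
# Descent of geometric origin along finitely generated extensions
-/

set_option autoImplicit false

open CategoryTheory AlgebraicGeometry Representation TensorProduct

namespace Pool.Agent.L5helper68.GD

lemma charP_ext {K L : Type} [Field K] [Field L] [Algebra K L] (p : ℕ) [CharP K p] : CharP L p :=
  charP_of_injective_algebraMap (algebraMap K L).injective p

lemma sepFT_baseChange {K L : Type} [Field K] [Field L] [Algebra K L] {Y : Sch K} (hY : SepFT Y) :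
    SepFT (baseChange L Y) := by
  obtain ⟨h1, h2, h3⟩ := hY
  refine ⟨?_, ?_, ?_⟩
  · change IsSeparated (Limits.pullback.snd _ _); infer_instance
  · change LocallyOfFiniteType (Limits.pullback.snd _ _); infer_instance
  · change QuasiCompact (Limits.pullback.snd _ _); infer_instance

lemma sepFT_restrictScalars {K L : Type} [Field K] [Field L] [Algebra K L] [FiniteDimensional K L]
    {Y : Sch L} (hY : SepFT Y) : SepFT (restrictScalars K Y) := by
  obtain ⟨h1, h2, h3⟩ := hY
  have h4 : LocallyOfFiniteType (Spec.map (CommRingCat.ofHom (algebraMap K L))) := by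
    rw [HasRingHomProperty.Spec_iff (P := @LocallyOfFiniteType)]
    exact RingHom.finiteType_algebraMap.2 inferInstance
  refine ⟨?_, ?_, ?_⟩
  · change IsSeparated (Y.hom ≫ _); infer_instance
  · change LocallyOfFiniteType (Y.hom ≫ _); infer_instance
  · change QuasiCompact (Y.hom ≫ _); infer_instance

lemma sepFT_prod {K : Type} [Field K] {Y Z : Sch K} (hY : SepFT Y) (hZ : SepFT Z) :
    SepFT (prod Y Z) := by
  obtain ⟨h1, h2, h3⟩ := hY
  obtain ⟨k1, k2, k3⟩ := hZ
  refine ⟨?_, ?_, ?_⟩
  · change IsSeparated (Limits.pullback.fst _ _ ≫ _); infer_instance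
  · change LocallyOfFiniteType (Limits.pullback.fst _ _ ≫ _); infer_instance
  · change QuasiCompact (Limits.pullback.fst _ _ ≫ _); infer_instance

/-! ### The two definitions of subquotients -/

section

variable {Ω G G' : Type} [Field Ω] [Group G] [Group G']

lemma isSubquotient_iff {A B : GRep Ω G} : IsSubquotient A B ↔ Occ A.ρ B.ρ := by
  constructor
  · rintro ⟨T, i, q, hi, hi', hq, hq'⟩
    let e : T.V ≃ₗ[Ω] LinearMap.range i := LinearEquiv.ofInjective i hi'
    have hinv : ∀ g, ∀ v ∈ LinearMap.range i, B.ρ g v ∈ LinearMap.range i := by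
      rintro g _ ⟨x, rfl⟩
      exact ⟨T.ρ g x, hi g x⟩
    refine ⟨LinearMap.range i, hinv, q ∘ₗ e.symm.toLinearMap, hq'.comp e.symm.surjective, ?_⟩
    intro g v
    obtain ⟨x, rfl⟩ := e.surjective v
    have h1 : (⟨B.ρ g (e x : B.V), hinv g _ (e x).2⟩ : LinearMap.range i) = e (T.ρ g x) :=
      Subtype.ext (hi g x).symm
    rw [h1]
    change q (e.symm (e (T.ρ g x))) = A.ρ g (q (e.symm (e x)))
    rw [LinearEquiv.symm_apply_apply, LinearEquiv.symm_apply_apply]
    exact hq g x
  · rintro ⟨U, hU, F, hF, h⟩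
    exact ⟨⟨U, subRep B.ρ U hU⟩, U.subtype, F, fun g v => rfl, U.injective_subtype,
      fun g v => h g v, hF⟩

lemma isIso_iff {A B : GRep Ω G} : IsIso A B ↔ Iso A.ρ B.ρ := by
  constructor
  · rintro ⟨f, h, hf⟩
    exact ⟨LinearEquiv.ofBijective f hf, h⟩
  · rintro ⟨e, he⟩
    exact ⟨e.toLinearMap, he, e.bijective⟩

end

/-! ### Restriction homomorphisms -/

lemma IsRes.toIsRestriction {K L : Type} [Field K] [Field L] [Algebra K L] {r : Gal L →* Gal K}
    (h : IsRes K L r) :
    IsRestriction K L (show GalG L →* GalG K from r) := h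

lemma IsRes.injective {K L : Type} [Field K] [Field L] [Algebra K L] [FiniteDimensional K L]
    {r : Gal L →* Gal K} (h : IsRes K L r) : Function.Injective r :=
  h.toIsRestriction.injective

lemma IsRes.normal {K L : Type} [Field K] [Field L] [Algebra K L] [FiniteDimensional K L]
    [Normal K L] {r : Gal L →* Gal K} (h : IsRes K L r) : r.range.Normal :=
  h.toIsRestriction.normal

lemma IsRes.finiteIndex {K L : Type} [Field K] [Field L] [Algebra K L] [FiniteDimensional K L]
    {r : Gal L →* Gal K} (h : IsRes K L r) : r.range.FiniteIndex :=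
  h.toIsRestriction.finiteIndex

variable {p : ℕ} {Ω : Type} [Field Ω] {H : Coh Ω} {χ : Cyc Ω}

lemma go_sub {L : Type} [Field L] {A B : GRep Ω (Gal L)} (h : GO H χ L A)
    (hB : IsSubquotient B A) : GO H χ L B := by
  obtain ⟨Y, hY, i, n, h⟩ := h
  rw [isSubquotient_iff] at h hB
  exact ⟨Y, hY, i, n, isSubquotient_iff.2 ((hB.twist _ _).trans h)⟩

lemma go_twist {L : Type} [Field L] {A : GRep Ω (Gal L)} (h : GO H χ L A) (m : ℤ) :
    GO H χ L (A.twist (χ L) m) := by
  obtain ⟨Y, hY, i, n, h⟩ := h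
  refine ⟨Y, hY, i, n - m, ?_⟩
  rw [isSubquotient_iff] at h ⊢
  change Occ (GD.twist (χ L) (n - m) (GD.twist (χ L) m A.ρ)) _
  rwa [twist_twist, sub_add_cancel]

lemma go_tensor (hE : IsEtaleTheory p H χ) {L : Type} [Field L] [CharP L p]
    {A B : GRep Ω (Gal L)} (h : GO H χ L A) (h' : GO H χ L B) : GO H χ L (A.tensor B) := by
  obtain ⟨Y, hY, i, n, h⟩ := h
  obtain ⟨Z, hZ, j, m, h'⟩ := h'
  refine ⟨prod Y Z, sepFT_prod hY hZ, i + j, n + m, ?_⟩
  rw [isSubquotient_iff] at h h' ⊢
  change Occ (GD.twist (χ L) (n + m) (tprod A.ρ B.ρ)) _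
  rw [← tprod_twist]
  exact (h.tprod h').trans (isSubquotient_iff.1 (hE.kunneth L Y Z hY hZ i j))

lemma go_restrict (hE : IsEtaleTheory p H χ) {K L : Type} [Field K] [Field L] [Algebra K L]
    [CharP K p] {r : Gal L →* Gal K} (hr : IsRes K L r) {A : GRep Ω (Gal K)}
    (h : GO H χ K A) : GO H χ L (A.res r) := by
  obtain ⟨Y, hY, i, n, h⟩ := h
  refine ⟨baseChange L Y, sepFT_baseChange hY, i, n, ?_⟩
  rw [isSubquotient_iff] at h ⊢
  change Occ (GD.twist (χ L) n (Res r A.ρ)) _
  rw [← hE.cyclotomic K L r hr, ← res_twist]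
  exact (h.res r).trans (Occ.of_iso (isIso_iff.1 (hE.base_change K L r hr Y hY i)))

lemma go_induce (hE : IsEtaleTheory p H χ) {K L : Type} [Field K] [Field L] [Algebra K L]
    [FiniteDimensional K L] [CharP K p] {r : Gal L →* Gal K} (hr : IsRes K L r)
    {A : GRep Ω (Gal L)} (h : GO H χ L A) : GO H χ K (A.ind r) := by
  obtain ⟨Y, hY, i, n, h⟩ := h
  refine ⟨restrictScalars K Y, sepFT_restrictScalars hY, i, n, ?_⟩
  rw [isSubquotient_iff] at h ⊢
  change Occ (GD.twist (χ K) n (coind r A.ρ)) _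
  refine (Occ.of_iso (twist_coind r (χ K) n A.ρ)).trans ?_
  rw [hE.cyclotomic K L r hr]
  exact (Occ.coind hr.injective h).trans
    (Occ.of_iso (isIso_iff.1 (hE.finite K L r hr Y hY i)))

/-- a subquotient of a finite-dimensional representation is finite-dimensional -/
lemma Occ.finiteDimensional {G S V : Type} [Group G] [AddCommGroup S] [Module Ω S] [AddCommGroup V]
    [Module Ω V] [FiniteDimensional Ω V] {σ : Representation Ω G S} {ρ : Representation Ω G V}
    (h : Occ σ ρ) : FiniteDimensional Ω S := by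
  obtain ⟨U, -, F, hF, -⟩ := h
  exact Module.Finite.of_surjective F hF

/-- the group-theoretic part of the descent -/
theorem descend_aux {G₀ G₁ G₂ D : Type} [Group G₀] [Group G₁] [Group G₂] [Group D] {a : D →* G₁}
    {s : D →* G₂} (hs : Function.Surjective s) {r : G₁ →* G₀} {r' : G₂ →* G₀}
    (hr1 : Function.Injective r') (hr2 : r'.range.Normal) (hr3 : r'.range.FiniteIndex)
    (hrs : r'.comp s = r.comp a) {V S W W' : Type} [AddCommGroup V] [Module Ω V]
    [FiniteDimensional Ω V] [AddCommGroup S] [Module Ω S] [Nontrivial S] [AddCommGroup W]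
    [Module Ω W] [AddCommGroup W'] [Module Ω W'] {ρ : Representation Ω G₀ V} (hρ : Irr ρ)
    {σ : Representation Ω G₁ S} (hσ : Occ σ (Res r ρ)) {A : Representation Ω G₁ W}
    (hA : Occ σ A) {A' : Representation Ω G₂ W'} (hiso : Iso (Res s A') (Res a A)) :
    Occ ρ (coind r' A') := by
  have : FiniteDimensional Ω S := hσ.finiteDimensional
  -- an irreducible constituent for the decomposition group
  obtain ⟨W, hW, hirr, hocc⟩ := exists_irr (Res a σ)
  have h1 : Occ (subRep (Res a σ) W hW) (Res s A') :=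
    (hocc.trans (hA.res a)).trans (Occ.of_iso hiso.symm)
  obtain ⟨τ, hτ, hτH⟩ := Occ.of_surjective hs h1
  have h2 : Occ (subRep (Res a σ) W hW) (Res s (Res r' ρ)) := by
    have h3 : Res s (Res r' ρ) = Res a (Res r ρ) := by
      ext d : 1
      change ρ (r'.comp s d) = ρ (r.comp a d)
      rw [hrs]
    rw [h3]
    exact hocc.trans (hσ.res a)
  obtain ⟨τ', hτ', hτρ⟩ := Occ.of_surjective hs h2
  have hττ : τ' = τ := by
    ext g : 1
    obtain ⟨d, rfl⟩ := hs g
    have h3 : Res s τ' = Res s τ := by rw [← hτ', ← hτ]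
    exact congrArg (fun φ : Representation Ω D W => φ d) h3
  subst hττ
  have hirrτ : Irr τ' := Irr.of_res (s := s) (by rw [← hτ']; exact hirr)
  obtain ⟨j, hj, hjeq⟩ := exists_hom hr2 hρ hirrτ hτρ
  exact occ_coind hr1 hr3 hρ hτH j hj hjeq

/-- **Descent.** -/
theorem go_descend (hE : IsEtaleTheory p H χ) {K M : Type} [Field K] [Field M] [Algebra K M]
    [CharP K p] (hM : (⊤ : IntermediateField K M).FG) {r : Gal M →* Gal K}
    (hr : IsRes K M r) {A : GRep Ω (Gal K)} {B : GRep Ω (Gal M)} (hA : IsIrreducible A)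
    (hB : Nontrivial B.V) (hBA : IsSubquotient B (A.res r)) (h : GO H χ M B) : GO H χ K A := by
  obtain ⟨Y, hY, i, n, h⟩ := h
  obtain ⟨K', _, _, Y', hK', hN, hY', D, _, a, s, r', hs, hr', hrs, hiso⟩ :=
    hE.generic K M hM r hr Y hY i
  refine ⟨restrictScalars K Y', sepFT_restrictScalars hY', i, n, ?_⟩
  have : FiniteDimensional Ω A.V := hA.1
  have h0 : Irr A.ρ := hA.2
  rw [isSubquotient_iff] at h hBA ⊢
  have h1 : Occ (GD.twist (χ M) n B.ρ) (Res r (GD.twist (χ K) n A.ρ)) := by
    rw [res_twist, hE.cyclotomic K M r hr]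
    exact hBA.twist _ _
  exact (descend_aux hs hr'.injective hr'.normal hr'.finiteIndex hrs (h0.twist (χ K) n) h1 h
    (isIso_iff.1 hiso)).trans (Occ.of_iso (isIso_iff.1 (hE.finite K K' r' hr' Y' hY' i)))

/-- **Representations of geometric origin form a closed class.** -/
theorem isClosedClass_go (hE : IsEtaleTheory p H χ) : IsClosedClass p χ (GO H χ) where
  sub := by
    intro L _ _ A B hB h
    exact go_sub h hB
  twist := by
    intro L _ _ A n h
    exact go_twist h n
  tensor := by
    intro L _ _ A B h h'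
    exact go_tensor hE h h'
  restrict := by
    intro K L _ _ _ _ r A hr h
    exact go_restrict hE hr h
  induce := by
    intro K L _ _ _ _ _ r A hr h
    exact go_induce hE hr h
  descend := by
    intro K M _ _ _ _ hM r hr A B hA hB hBA h
    exact go_descend hE hM hr hA hB hBA h

theorem descentIff_go (hE : IsEtaleTheory p H χ) : DescentIff p (GO H χ) := by
  intro K M _ _ _ _ hM r hr A B hA hB hBA
  exact ⟨fun h => go_sub (go_restrict hE hr h) hBA, fun h => go_descend hE hM hr hA hB hBA h⟩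

end Pool.Agent.L5helper68.GD
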