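import Mathlib

/-!
# Subquotients of representations
-/

set_option autoImplicit false

open Representation

namespace Pool.Agent.L5helper68.GD

variable {Ω : Type} [Field Ω] {G G' G'' : Type} [Group G] [Group G'] [Group G'']
  {S T V W : Type} [AddCommGroup S] [Module Ω S] [AddCommGroup T] [Module Ω T] [AddCommGroup V]
  [Module Ω V] [AddCommGroup W] [Module Ω W]

/-- `σ` is a subquotient of `ρ`: the image of an invariant subspace under an equivariant map. -/
def Occ (σ : Representation Ω G S) (ρ : Representation Ω G V) : Prop :=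
  ∃ (U : Submodule Ω V) (hU : ∀ g, ∀ v ∈ U, ρ g v ∈ U) (F : U →ₗ[Ω] S),
    Function.Surjective F ∧ ∀ g (v : U), F ⟨ρ g v, hU g v v.2⟩ = σ g (F v)

/-- `ρ` and `σ` are isomorphic. -/
def Iso (σ : Representation Ω G S) (ρ : Representation Ω G V) : Prop :=
  ∃ e : S ≃ₗ[Ω] V, ∀ g v, e (σ g v) = ρ g (e v)

/-- `ρ` is irreducible. -/
def Irr (ρ : Representation Ω G V) : Prop :=
  Nontrivial V ∧ ∀ U : Submodule Ω V, (∀ g, ∀ v ∈ U, ρ g v ∈ U) → U = ⊥ ∨ U = ⊤

/-- the restriction of `ρ` along a homomorphism -/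
abbrev Res (f : G' →* G) (ρ : Representation Ω G V) : Representation Ω G' V := ρ.comp f

lemma Iso.symm {σ : Representation Ω G S} {ρ : Representation Ω G V} (h : Iso σ ρ) : Iso ρ σ := by
  obtain ⟨e, he⟩ := h
  refine ⟨e.symm, fun g v => ?_⟩
  rw [LinearEquiv.symm_apply_eq, he, LinearEquiv.apply_symm_apply]

lemma Iso.res {σ : Representation Ω G S} {ρ : Representation Ω G V} (h : Iso σ ρ) (f : G' →* G) :
    Iso (Res f σ) (Res f ρ) := by
  obtain ⟨e, he⟩ := h
  exact ⟨e, fun g v => he (f g) v⟩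

lemma Occ.of_iso {σ : Representation Ω G S} {ρ : Representation Ω G V} (h : Iso σ ρ) :
    Occ σ ρ := by
  obtain ⟨e, he⟩ := h.symm
  exact ⟨⊤, fun _ _ _ => trivial, e.toLinearMap ∘ₗ (⊤ : Submodule Ω V).subtype,
    fun s => ⟨⟨e.symm s, trivial⟩, by simp⟩, fun g v => he g v⟩

lemma Occ.refl (ρ : Representation Ω G V) : Occ ρ ρ :=
  Occ.of_iso ⟨LinearEquiv.refl Ω V, fun _ _ => rfl⟩

lemma Occ.res {σ : Representation Ω G S} {ρ : Representation Ω G V} (h : Occ σ ρ) (f : G' →* G) :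
    Occ (Res f σ) (Res f ρ) := by
  obtain ⟨U, hU, F, hF, h⟩ := h
  exact ⟨U, fun g => hU (f g), F, hF, fun g v => h (f g) v⟩

lemma Occ.trans {τ : Representation Ω G T} {σ : Representation Ω G S} {ρ : Representation Ω G V}
    (h1 : Occ τ σ) (h2 : Occ σ ρ) : Occ τ ρ := by
  obtain ⟨U1, hU1, F1, hF1, h1⟩ := h1
  obtain ⟨U2, hU2, F2, hF2, h2⟩ := h2
  let U : Submodule Ω V := (U1.comap F2).map U2.subtype
  have key : ∀ v, v ∈ U ↔ ∃ h : v ∈ U2, F2 ⟨v, h⟩ ∈ U1 := by
    intro v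
    constructor
    · rintro ⟨w, hw, rfl⟩
      exact ⟨w.2, hw⟩
    · rintro ⟨h, hw⟩
      exact ⟨⟨v, h⟩, hw, rfl⟩
  have hle : U ≤ U2 := fun v hv => ((key v).1 hv).1
  let F : U →ₗ[Ω] T := F1 ∘ₗ LinearMap.codRestrict U1 (F2 ∘ₗ Submodule.inclusion hle)
    (fun v => ((key v).1 v.2).2)
  refine ⟨U, ?_, F, ?_, ?_⟩
  · intro g v hv
    obtain ⟨h, hw⟩ := (key v).1 hv
    refine (key _).2 ⟨hU2 g v h, ?_⟩
    rw [h2 g ⟨v, h⟩]
    exact hU1 g _ hw
  · intro t
    obtain ⟨⟨s, hs⟩, rfl⟩ := hF1 t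
    obtain ⟨⟨v, hv⟩, rfl⟩ := hF2 s
    exact ⟨⟨v, (key v).2 ⟨hv, hs⟩⟩, rfl⟩
  · rintro g ⟨v, hv⟩
    obtain ⟨h, hw⟩ := (key v).1 hv
    change F1 ⟨F2 ⟨ρ g v, _⟩, _⟩ = τ g (F1 ⟨F2 ⟨v, _⟩, _⟩)
    rw [← h1 g ⟨F2 ⟨v, h⟩, hw⟩]
    congr 1
    exact Subtype.ext (h2 g ⟨v, h⟩)

/-- a nonzero finite-dimensional representation has an irreducible subquotient, in fact an
irreducible subrepresentation -/
lemma exists_irr_sub (ρ : Representation Ω G V) [FiniteDimensional Ω V] (U : Submodule Ω V)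
    (hU : ∀ g, ∀ v ∈ U, ρ g v ∈ U) (h0 : U ≠ ⊥) :
    ∃ W : Submodule Ω V, W ≤ U ∧ W ≠ ⊥ ∧ (∀ g, ∀ v ∈ W, ρ g v ∈ W) ∧
      ∀ W' : Submodule Ω V, W' ≤ W → (∀ g, ∀ v ∈ W', ρ g v ∈ W') → W' = ⊥ ∨ W' = W := by
  induction hn : Module.finrank Ω U using Nat.strong_induction_on generalizing U with
  | _ n ih =>
    by_cases h : ∀ W' : Submodule Ω V, W' ≤ U → (∀ g, ∀ v ∈ W', ρ g v ∈ W') → W' = ⊥ ∨ W' = U
    · exact ⟨U, le_rfl, h0, hU, h⟩
    · push Not at h
      obtain ⟨W', hW', hinv, hne, hne'⟩ := h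
      have hlt : Module.finrank Ω W' < Module.finrank Ω U :=
        Submodule.finrank_lt_finrank_of_lt (lt_of_le_of_ne hW' hne')
      obtain ⟨W, h1, h2, h3, h4⟩ := ih _ (hn ▸ hlt) W' hinv hne rfl
      exact ⟨W, h1.trans hW', h2, h3, h4⟩

/-- the representation on an invariant subspace -/
def subRep (ρ : Representation Ω G V) (U : Submodule Ω V) (hU : ∀ g, ∀ v ∈ U, ρ g v ∈ U) :
    Representation Ω G U where
  toFun g := (ρ g).restrict (hU g)
  map_one' := by ext v; simp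
  map_mul' g h := by ext v; simp

lemma exists_irr (ρ : Representation Ω G V) [FiniteDimensional Ω V] [Nontrivial V] :
    ∃ (W : Submodule Ω V) (hW : ∀ g, ∀ v ∈ W, ρ g v ∈ W), Irr (subRep ρ W hW) ∧
      Occ (subRep ρ W hW) ρ := by
  obtain ⟨W, -, h0, hW, hmin⟩ := exists_irr_sub ρ ⊤ (fun _ _ _ => trivial) top_ne_bot
  refine ⟨W, hW, ⟨?_, ?_⟩, W, hW, LinearMap.id, fun s => ⟨s, rfl⟩, fun g v => rfl⟩
  · exact Submodule.nontrivial_iff_ne_bot.2 h0
  · intro U hU
    have h1 : U.map W.subtype ≤ W := by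
      rintro _ ⟨u, -, rfl⟩; exact u.2
    rcases hmin (U.map W.subtype) h1 (by
      rintro g _ ⟨u, hu, rfl⟩
      exact ⟨_, hU g u hu, rfl⟩) with h | h
    · left
      exact Submodule.map_injective_of_injective W.injective_subtype (by rw [h, Submodule.map_bot])
    · right
      rw [eq_top_iff]
      intro w _
      have : (w : V) ∈ U.map W.subtype := by rw [h]; exact w.2
      obtain ⟨u, hu, hw⟩ := this
      have : u = w := Subtype.ext hw
      rwa [← this]

/-- If `s` is surjective, then a subquotient of the restriction of `ρ` along `s` is a restriction. -/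
lemma Occ.of_surjective {s : G' →* G} (hs : Function.Surjective s) {σ : Representation Ω G' S}
    {ρ : Representation Ω G V} (h : Occ σ (Res s ρ)) :
    ∃ τ : Representation Ω G S, σ = Res s τ ∧ Occ τ ρ := by
  obtain ⟨U, hU, F, hF, h⟩ := h
  have hU' : ∀ g, ∀ v ∈ U, ρ g v ∈ U := by
    intro g v hv
    obtain ⟨g, rfl⟩ := hs g
    exact hU g v hv
  have key : ∀ g g' : G', s g = s g' → σ g = σ g' := by
    intro g g' hg
    ext t
    obtain ⟨v, rfl⟩ := hF t
    rw [← h g v, ← h g' v]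
    congr 1
    exact Subtype.ext (by change ρ (s g) v = ρ (s g') v; rw [hg])
  choose q hq using hs
  let τ : Representation Ω G S :=
    { toFun := fun g => σ (q g)
      map_one' := by
        rw [← map_one σ]
        exact key _ _ (by rw [hq, map_one])
      map_mul' := fun a b => by
        rw [← map_mul σ]
        exact key _ _ (by rw [hq, map_mul, hq, hq]) }
  have hτ : σ = Res s τ := by
    ext g : 1
    exact key _ _ (by rw [hq])
  refine ⟨τ, hτ, U, hU', F, hF, ?_⟩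
  intro g v
  change F _ = σ (q g) (F v)
  rw [← h (q g) v]
  congr 1
  exact Subtype.ext (by change ρ g v = ρ (s (q g)) v; rw [hq])

lemma Irr.of_res {s : G' →* G} {τ : Representation Ω G S} (h : Irr (Res s τ)) : Irr τ :=
  ⟨h.1, fun U hU => h.2 U fun g => hU (s g)⟩

end Pool.Agent.L5helper68.GD
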