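import Pool.Agent.L5helper68.GD.Occ

/-!
# Twists, tensor products and coinduction of subquotients
-/

set_option autoImplicit false

open Representation TensorProduct

namespace Pool.Agent.L5helper68.GD

variable {Ω : Type} [Field Ω] {G G' : Type} [Group G] [Group G']
  {S T V W : Type} [AddCommGroup S] [Module Ω S] [AddCommGroup T] [Module Ω T] [AddCommGroup V]
  [Module Ω V] [AddCommGroup W] [Module Ω W]

/-- the representation `σ ⊗ χ ^ n` -/
def twist (χ : G →* Ωˣ) (n : ℤ) (σ : Representation Ω G S) : Representation Ω G S where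
  toFun g := ((χ g ^ n : Ωˣ) : Ω) • σ g
  map_one' := by simp
  map_mul' g h := by
    rw [map_mul, map_mul, mul_zpow, Units.val_mul, smul_mul_smul_comm]

lemma twist_apply (χ : G →* Ωˣ) (n : ℤ) (σ : Representation Ω G S) (g : G) (v : S) :
    twist χ n σ g v = ((χ g ^ n : Ωˣ) : Ω) • σ g v := rfl

lemma twist_twist (χ : G →* Ωˣ) (m n : ℤ) (σ : Representation Ω G S) :
    twist χ m (twist χ n σ) = twist χ (m + n) σ := by
  ext g v
  simp only [twist_apply, smul_smul, zpow_add, Units.val_mul]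

lemma twist_zero (χ : G →* Ωˣ) (σ : Representation Ω G S) : twist χ 0 σ = σ := by
  ext g v
  simp [twist_apply]

lemma res_twist (f : G' →* G) (χ : G →* Ωˣ) (n : ℤ) (σ : Representation Ω G S) :
    Res f (twist χ n σ) = twist (χ.comp f) n (Res f σ) := rfl

lemma Occ.twist {σ : Representation Ω G S} {ρ : Representation Ω G V} (h : Occ σ ρ) (χ : G →* Ωˣ)
    (n : ℤ) : Occ (twist χ n σ) (twist χ n ρ) := by
  obtain ⟨U, hU, F, hF, h⟩ := h
  refine ⟨U, fun g v hv => U.smul_mem _ (hU g v hv), F, hF, fun g v => ?_⟩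
  change F (((χ g ^ n : Ωˣ) : Ω) • ⟨ρ g v, hU g v v.2⟩) = ((χ g ^ n : Ωˣ) : Ω) • σ g (F v)
  rw [map_smul, h g v]

lemma Irr.twist {σ : Representation Ω G S} (h : Irr σ) (χ : G →* Ωˣ) (n : ℤ) :
    Irr (twist χ n σ) := by
  refine ⟨h.1, fun U hU => h.2 U fun g v hv => ?_⟩
  have := U.smul_mem (((χ g ^ n)⁻¹ : Ωˣ) : Ω) (hU g v hv)
  rwa [twist_apply, smul_smul, Units.inv_mul, one_smul] at this

lemma tprod_twist (χ : G →* Ωˣ) (m n : ℤ) (σ : Representation Ω G S)
    (τ : Representation Ω G T) :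
    tprod (twist χ m σ) (twist χ n τ) = twist χ (m + n) (tprod σ τ) := by
  ext g s t
  change (((χ g ^ m : Ωˣ) : Ω) • σ g s) ⊗ₜ[Ω] (((χ g ^ n : Ωˣ) : Ω) • τ g t) =
    ((χ g ^ (m + n) : Ωˣ) : Ω) • (σ g s ⊗ₜ[Ω] τ g t)
  rw [TensorProduct.smul_tmul_smul, zpow_add, Units.val_mul]

/-- the tensor product of subquotients is a subquotient of the tensor product -/
lemma Occ.tprod {σ : Representation Ω G S} {ρ : Representation Ω G V}
    {σ' : Representation Ω G T} {ρ' : Representation Ω G W} (h : Occ σ ρ) (h' : Occ σ' ρ') :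
    Occ (tprod σ σ') (tprod ρ ρ') := by
  obtain ⟨U, hU, F, hF, h⟩ := h
  obtain ⟨U', hU', F', hF', h'⟩ := h'
  let m : U ⊗[Ω] U' →ₗ[Ω] V ⊗[Ω] W := TensorProduct.map U.subtype U'.subtype
  have hm : Function.Injective m :=
    TensorProduct.map_injective_of_flat_flat _ _ U.subtype_injective U'.subtype_injective
  let e : (U ⊗[Ω] U') ≃ₗ[Ω] LinearMap.range m := LinearEquiv.ofInjective m hm
  let a : G → (U ⊗[Ω] U' →ₗ[Ω] U ⊗[Ω] U') := fun g =>
    TensorProduct.map ((ρ g).restrict (hU g)) ((ρ' g).restrict (hU' g))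
  have ha : ∀ g x, m (a g x) = Representation.tprod ρ ρ' g (m x) := by
    intro g x
    induction x with
    | zero => simp
    | tmul x y => rfl
    | add x y hx hy => rw [map_add, map_add, hx, hy, map_add, map_add]
  have hinv : ∀ g, ∀ v ∈ LinearMap.range m, Representation.tprod ρ ρ' g v ∈ LinearMap.range m := by
    rintro g _ ⟨x, rfl⟩
    exact ⟨a g x, ha g x⟩
  refine ⟨LinearMap.range m, hinv, TensorProduct.map F F' ∘ₗ e.symm.toLinearMap, ?_, ?_⟩
  · exact (TensorProduct.map_surjective hF hF').comp e.symm.surjective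
  · intro g v
    obtain ⟨x, rfl⟩ := e.surjective v
    have h1 : (⟨Representation.tprod ρ ρ' g (e x : V ⊗[Ω] W), hinv g _ (e x).2⟩ :
        LinearMap.range m) = e (a g x) := Subtype.ext (ha g x).symm
    rw [h1]
    change TensorProduct.map F F' (e.symm (e (a g x))) =
      TensorProduct.map (σ g) (σ' g) (TensorProduct.map F F' (e.symm (e x)))
    rw [LinearEquiv.symm_apply_apply, LinearEquiv.symm_apply_apply]
    induction x with
    | zero => simp
    | tmul x y =>
      change F _ ⊗ₜ[Ω] F' _ = σ g (F x) ⊗ₜ[Ω] σ' g (F' y)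
      rw [← h g x, ← h' g y]; rfl
    | add x y hx hy =>
      have hx' := hx (Subtype.ext (ha g x).symm)
      have hy' := hy (Subtype.ext (ha g y).symm)
      rw [map_add, map_add, hx', hy', map_add, map_add]

/-- coinduction commutes with twists -/
lemma twist_coind (f : G' →* G) (χ : G →* Ωˣ) (n : ℤ) (σ : Representation Ω G' S) :
    Iso (twist χ n (coind f σ)) (coind f (twist (χ.comp f) n σ)) := by
  have key : ∀ (n : ℤ) (σ : Representation Ω G' S) (h : G → S), h ∈ coindV f σ →
      (fun x => ((χ x ^ n : Ωˣ) : Ω) • h x) ∈ coindV f (twist (χ.comp f) n σ) := by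
    intro n σ h hh g x
    change ((χ (f g * x) ^ n : Ωˣ) : Ω) • h (f g * x) =
      ((χ (f g) ^ n : Ωˣ) : Ω) • σ g (((χ x ^ n : Ωˣ) : Ω) • h x)
    rw [hh g x, map_smul, smul_smul, map_mul, mul_zpow, Units.val_mul]
  refine ⟨LinearEquiv.ofBijective
    { toFun := fun h => ⟨_, key n σ h.1 h.2⟩
      map_add' := fun a b => Subtype.ext (funext fun x => smul_add _ _ _)
      map_smul' := fun c a => Subtype.ext (funext fun x => smul_comm _ _ _) } ⟨?_, ?_⟩, ?_⟩
  · intro a b hab
    apply Subtype.ext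
    funext x
    have h1 : ((χ x ^ n : Ωˣ) : Ω) • a.1 x = ((χ x ^ n : Ωˣ) : Ω) • b.1 x :=
      congrFun (congrArg Subtype.val hab) x
    have h2 := congrArg (fun y => (((χ x ^ n)⁻¹ : Ωˣ) : Ω) • y) h1
    simpa only [smul_smul, Units.inv_mul, one_smul] using h2
  · intro b
    have h1 := key (-n) (twist (χ.comp f) n σ) b.1 b.2
    rw [twist_twist, neg_add_cancel, twist_zero] at h1
    refine ⟨⟨_, h1⟩, Subtype.ext (funext fun x => ?_)⟩
    change ((χ x ^ n : Ωˣ) : Ω) • ((χ x ^ (-n) : Ωˣ) : Ω) • b.1 x = b.1 x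
    rw [smul_smul, ← Units.val_mul, ← zpow_add, add_neg_cancel, zpow_zero, Units.val_one, one_smul]
  · intro g a
    apply Subtype.ext
    funext x
    change ((χ x ^ n : Ωˣ) : Ω) • ((χ g ^ n : Ωˣ) : Ω) • a.1 (x * g) =
      ((χ (x * g) ^ n : Ωˣ) : Ω) • a.1 (x * g)
    rw [smul_smul, ← Units.val_mul, map_mul, mul_zpow]

/-- coinduction is exact -/
lemma Occ.coind {f : G' →* G} (hf : Function.Injective f) {σ : Representation Ω G' S}
    {ρ : Representation Ω G' V} (h : Occ σ ρ) : Occ (coind f σ) (coind f ρ) := by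
  classical
  obtain ⟨U, hU, F, hF, h⟩ := h
  let E : Submodule Ω (coindV f ρ) :=
    { carrier := {x | ∀ y, x.1 y ∈ U}
      add_mem' := fun ha hb y => U.add_mem (ha y) (hb y)
      zero_mem' := fun _ => U.zero_mem
      smul_mem' := fun c _ ha y => U.smul_mem c (ha y) }
  have hE : ∀ g, ∀ v ∈ E, Representation.coind f ρ g v ∈ E := fun g v hv y => hv (y * g)
  have key : ∀ x : E, (fun y => F ⟨x.1.1 y, x.2 y⟩) ∈ coindV f σ := by
    intro x g y
    change F ⟨x.1.1 (f g * y), _⟩ = σ g (F ⟨x.1.1 y, _⟩)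
    rw [← h g ⟨x.1.1 y, x.2 y⟩]
    congr 1
    exact Subtype.ext (x.1.2 g y)
  let Φ : E →ₗ[Ω] coindV f σ :=
    { toFun := fun x => ⟨_, key x⟩
      map_add' := fun a b => Subtype.ext (funext fun y => by
        change F _ = F _ + F _
        rw [← map_add]; rfl)
      map_smul' := fun c a => Subtype.ext (funext fun y => by
        change F _ = c • F _
        rw [← map_smul]; rfl) }
  refine ⟨E, hE, Φ, ?_, ?_⟩
  · intro b
    choose l hl using hF
    let Q := Quotient (QuotientGroup.rightRel f.range)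
    let q : G → G := fun y => (Quotient.mk'' y : Q).out
    have hq : ∀ y, ∃ g, y = f g * q y := by
      intro y
      have h1 : (Quotient.mk'' (q y) : Q) = Quotient.mk'' y := Quotient.out_eq' _
      rw [Quotient.eq'', QuotientGroup.rightRel_apply] at h1
      obtain ⟨g, hg⟩ := h1
      exact ⟨g, by rw [hg]; group⟩
    choose c hc using hq
    have hqf : ∀ a y, q (f a * y) = q y := by
      intro a y
      have : (Quotient.mk'' (f a * y) : Q) = Quotient.mk'' y := by
        rw [Quotient.eq'', QuotientGroup.rightRel_apply]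
        exact ⟨a⁻¹, by rw [map_inv]; group⟩
      change (Quotient.mk'' (f a * y) : Q).out = _
      rw [this]
    have hcf : ∀ a y, c (f a * y) = a * c y := by
      intro a y
      apply hf
      have h1 := hc (f a * y)
      rw [hqf] at h1
      have h2 : f a * y = f a * f (c y) * q y := by
        rw [mul_assoc, ← hc y]
      rw [h2] at h1
      have := mul_right_cancel h1
      rw [map_mul, this, h2]
    have hx : (fun y => ρ (c y) (l (b.1 (q y)) : V)) ∈ coindV f ρ := by
      intro a y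
      change ρ (c (f a * y)) (l (b.1 (q (f a * y))) : V) = ρ a (ρ (c y) _)
      rw [hcf, hqf, map_mul]; rfl
    refine ⟨⟨⟨_, hx⟩, fun y => hU _ _ (l (b.1 (q y))).2⟩, Subtype.ext (funext fun y => ?_)⟩
    change F ⟨ρ (c y) (l (b.1 (q y)) : V), _⟩ = b.1 y
    rw [h (c y) (l (b.1 (q y))), hl, ← b.2 (c y) (q y), ← hc y]
  · intro g x
    rfl

end Pool.Agent.L5helper68.GD
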